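import Pool.Agent.P.MP_158617_an.Main

namespace Pool.Agent.Results.MP_158617_an.FreeL1

open Pool.Agent.P.MP_158617_an

/-- Let `X` be a Jordan arc, parametrised by a homeomorphism `γ : [0,1] → X`, which is bounded
turning: the subarc with endpoints `x` and `y` has diameter at most `C d(x, y)`. Then the Lipschitz
free space of `X` (for any base point) is isomorphic to `L¹(Z)` for some measure space `Z`. -/
theorem result {X : Type*} [MetricSpace X] (γ : Set.Icc (0 : ℝ) 1 ≃ₜ X) (C : ℝ) (hC : 1 ≤ C)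
    (hBT : ∀ x y : X, Metric.diam (γ '' Set.uIcc (γ.symm x) (γ.symm y)) ≤ C * dist x y)
    (x₀ : X) :
    ∃ (Z : Type) (_ : MeasurableSpace Z) (μ : MeasureTheory.Measure Z),
      Nonempty (freeSpace x₀ ≃L[ℝ] MeasureTheory.Lp ℝ 1 μ) :=
  main γ C hC hBT x₀

end Pool.Agent.Results.MP_158617_an.FreeL1
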